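import Pool.Agent.Run7.h852.AllLam

/-!
Q1 of MP_132c09_co for all `λ`, with a constant that is linear in the smallest cell of the Venn
diagram.
-/

/-- There is an absolute constant `C > 0` such that for all `n, m, l, k ≥ 1`, `0 < ε ≤ 1/2` and all
families `A, B` of `m` subsets of an `n`-element set such that at least `(1 - ε) m ^ 2` of the cross
pairs meet in exactly `l` elements and, for all `a ∈ A` and `b ∈ B`, one of the four numbers
`l`, `|a| - l`, `|b| - l`, `n - |a| - |b| + l` is at most `k`, there are subfamilies `A' ⊆ A`,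
`B' ⊆ B` all of whose cross pairs meet in exactly `l` elements, with
`|A'| |B'| ≥ 2 ^ (- C M) |A| |B|` where `M` is the smallest of `√(n ε) + n ε`,
`k √(n ε log (n + 1))` and `√(n k) + k log (n + 1)`. -/
theorem Pool.Agent.Results.MP_132c09_co.AllLambda.result :
    ∃ C : ℝ, 0 < C ∧
      ∀ (n m l k : ℕ) (ε : ℝ) (A B : Finset (Finset (Fin n))),
      1 ≤ n → 1 ≤ m → 1 ≤ l → 1 ≤ k → 0 < ε → ε ≤ 1 / 2 → A.card = m → B.card = m →
      (∀ a ∈ A, ∀ b ∈ B, l ≤ k ∨ a.card ≤ l + k ∨ b.card ≤ l + k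
        ∨ n + l ≤ a.card + b.card + k) →
      (1 - ε) * (m : ℝ) ^ 2
        ≤ (((A ×ˢ B).filter (fun P => (P.1 ∩ P.2).card = l)).card : ℝ) →
      ∃ A' ⊆ A, ∃ B' ⊆ B,
        (2 : ℝ) ^ (-(C * min (Real.sqrt (n * ε) + n * ε)
            (min (k * Real.sqrt (n * (ε * Real.log ((n : ℝ) + 1))))
              (Real.sqrt (n * k) + k * Real.log ((n : ℝ) + 1)))))
            * ((A.card : ℝ) * (B.card : ℝ)) ≤ (A'.card : ℝ) * (B'.card : ℝ) ∧
        ∀ a ∈ A', ∀ b ∈ B', (a ∩ b).card = l := by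
  obtain ⟨C, hC, h⟩ := Run7.h852.concl_cell_lin
  have hlog2 : 0 < Real.log 2 := Real.log_pos (by norm_num)
  refine ⟨C / Real.log 2, by positivity, ?_⟩
  intro n m l k ε A B hn hm hl hk hε hε2 hA hB hcell hgood
  have hAne : A.Nonempty := Finset.card_pos.1 (by omega)
  have hBne : B.Nonempty := Finset.card_pos.1 (by omega)
  obtain ⟨A', hA', B', hB', h1, h2⟩ := h hn hk hAne hBne hcell hε hε2 (by
    rw [hA, hB]
    have : (m : ℝ) * (m : ℝ) = (m : ℝ) ^ 2 := by ring
    rw [this]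
    exact hgood)
  refine ⟨A', hA', B', hB', ?_, h2⟩
  rw [Run7.h852.exp_eq_two_rpow]
  exact h1
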