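import Pool.Agent.Run7.h852.Families

/-!
The case of intersections of size exactly one of Q1 of MP_132c09_co, up to the window
`1 < n ε < (log n)^2`.
-/

/-- There is an absolute constant `C > 0` such that for all `n ≥ 1`, `0 < ε ≤ 1/2`, `m ≥ 1` and
all families `A, B` of `m` subsets of an `n`-element set of which at least `(1 - ε) m ^ 2` cross
pairs meet in exactly one element, there are subfamilies `A' ⊆ A`, `B' ⊆ B` all of whose cross
pairs meet in exactly one element, with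
`|A'| |B'| ≥ 2 ^ (- C (√(n ε) + min (n ε) (log (n + 1)))) |A| |B|`. -/
theorem Pool.Agent.Results.MP_132c09_co.LambdaOne.result :
    ∃ C : ℝ, 0 < C ∧ ∀ (n m : ℕ) (ε : ℝ) (A B : Finset (Finset (Fin n))),
      1 ≤ n → 1 ≤ m → 0 < ε → ε ≤ 1 / 2 → A.card = m → B.card = m →
      (1 - ε) * (m : ℝ) ^ 2
        ≤ (((A ×ˢ B).filter (fun P => (P.1 ∩ P.2).card = 1)).card : ℝ) →
      ∃ A' ⊆ A, ∃ B' ⊆ B,
        (2 : ℝ) ^ (-(C * (Real.sqrt (n * ε) + min (n * ε) (Real.log (n + 1)))))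
            * ((A.card : ℝ) * (B.card : ℝ)) ≤ (A'.card : ℝ) * (B'.card : ℝ) ∧
        ∀ a ∈ A', ∀ b ∈ B', (a ∩ b).card = 1 := by
  obtain ⟨C, hC, h⟩ := Run7.h852.concl_one
  have hlog2 : 0 < Real.log 2 := Real.log_pos (by norm_num)
  refine ⟨C / Real.log 2, by positivity, ?_⟩
  intro n m ε A B hn hm hε hε2 hA hB hgood
  have hAne : A.Nonempty := Finset.card_pos.1 (by omega)
  have hBne : B.Nonempty := Finset.card_pos.1 (by omega)
  obtain ⟨A', hA', B', hB', h1, h2⟩ := h hn hAne hBne hε hε2 (by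
    rw [hA, hB]
    have : (m : ℝ) * (m : ℝ) = (m : ℝ) ^ 2 := by ring
    rw [this]
    exact hgood)
  refine ⟨A', hA', B', hB', ?_, h2⟩
  rw [Run7.h852.exp_eq_two_rpow]
  exact h1
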