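import Pool.Agent.Run7.h852.Sparse

/-!
All intersection sizes, sparse regime, of Q1 of MP_132c09_co.
-/

/-- There are absolute constants `C, c > 0` such that for all `n ≥ 1`, `m ≥ 1`, `l ≥ 0`, `D ≥ 1`,
`0 < ε ≤ 1/2` with `n * ε ^ 2 * log (D + 1) ≤ c` and all families `A, B` of `m` subsets of an
`n`-element set all of whose cross intersections have size between `l - D` and `l + D`, and at
least `(1 - ε) m ^ 2` of whose cross pairs meet in exactly `l` elements, there are subfamilies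
`A' ⊆ A`, `B' ⊆ B` all of whose cross pairs meet in exactly `l` elements, with
`|A'| |B'| ≥ 2 ^ (- C √(n ε log (D + 1))) |A| |B|`. -/
theorem Pool.Agent.Results.MP_132c09_co.SparseRegime.result :
    ∃ C : ℝ, 0 < C ∧ ∃ c : ℝ, 0 < c ∧
      ∀ (n m l D : ℕ) (ε : ℝ) (A B : Finset (Finset (Fin n))),
      1 ≤ n → 1 ≤ m → 1 ≤ D → 0 < ε → ε ≤ 1 / 2 →
      (n : ℝ) * (ε ^ 2 * Real.log ((D : ℝ) + 1)) ≤ c →
      A.card = m → B.card = m →
      (∀ a ∈ A, ∀ b ∈ B, |((a ∩ b).card : ℝ) - (l : ℝ)| ≤ (D : ℝ)) →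
      (1 - ε) * (m : ℝ) ^ 2
        ≤ (((A ×ˢ B).filter (fun P => (P.1 ∩ P.2).card = l)).card : ℝ) →
      ∃ A' ⊆ A, ∃ B' ⊆ B,
        (2 : ℝ) ^ (-(C * Real.sqrt (n * (ε * Real.log ((D : ℝ) + 1)))))
            * ((A.card : ℝ) * (B.card : ℝ)) ≤ (A'.card : ℝ) * (B'.card : ℝ) ∧
        ∀ a ∈ A', ∀ b ∈ B', (a ∩ b).card = l := by
  have hlog2 : 0 < Real.log 2 := Real.log_pos (by norm_num)
  refine ⟨700 / Real.log 2, by positivity, 1 / 42000, by norm_num, ?_⟩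
  intro n m l D ε A B hn hm hD hε hε2 hsp hA hB hdev hgood
  have hAne : A.Nonempty := Finset.card_pos.1 (by omega)
  have hBne : B.Nonempty := Finset.card_pos.1 (by omega)
  obtain ⟨A', hA', B', hB', h1, h2⟩ := Run7.h852.concl_sparse hn hD hAne hBne hε hε2 hdev hsp (by
    rw [hA, hB]
    have : (m : ℝ) * (m : ℝ) = (m : ℝ) ^ 2 := by ring
    rw [this]
    exact hgood)
  refine ⟨A', hA', B', hB', ?_, h2⟩
  rw [Run7.h852.exp_eq_two_rpow]
  exact h1
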